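import Mathlib

/-!
# Job KUM of project ESB (helper161), by helper150: the group theory

The characters of an elementary abelian 2-group.
-/

set_option autoImplicit false

namespace Pool.Agent.Q150.ESB

/-- a group with `2 ^ m` elements and `g * g = 1` has a dual basis of characters -/
theorem dual_basis (G : Type) [Group G] [Finite G] (m : ℕ) (hc : Nat.card G = 2 ^ m)
    (h2 : ∀ g : G, g * g = 1) :
    ∃ (e : Fin m → G) (χ : Fin m → G → ZMod 2), (∀ j g h, χ j (g * h) = χ j g + χ j h) ∧
      (∀ i j, χ i (e j) = if i = j then 1 else 0) ∧
      ∀ f : G → ZMod 2, (∀ g h, f (g * h) = f g + f h) → ∀ g, f g = ∑ j, f (e j) * χ j g := by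
  classical
  have hinv : ∀ g : G, g⁻¹ = g := fun g => inv_eq_of_mul_eq_one_left (h2 g)
  have hcomm : ∀ g h : G, g * h = h * g := by
    intro g h
    have h1 := hinv (g * h)
    rw [mul_inv_rev, hinv, hinv] at h1
    exact h1.symm
  letI : CommGroup G := { (inferInstance : Group G) with mul_comm := hcomm }
  letI : Module (ZMod 2) (Additive G) := AddCommGroup.zmodModule (n := 2) fun x => by
    rw [two_nsmul]
    exact h2 x.toMul
  have hfr : Module.finrank (ZMod 2) (Additive G) = m := by
    have : Fintype (Additive G) := Fintype.ofFinite _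
    have h1 := Module.card_eq_pow_finrank (K := ZMod 2) (V := Additive G)
    rw [ZMod.card, ← Nat.card_eq_fintype_card] at h1
    have h3 : Nat.card (Additive G) = 2 ^ m := by
      rw [← hc]
      exact Nat.card_congr Additive.toMul
    rw [h3] at h1
    exact (Nat.pow_right_injective le_rfl h1).symm
  have b : Module.Basis (Fin m) (ZMod 2) (Additive G) := Module.finBasisOfFinrankEq _ _ hfr
  refine ⟨fun j => (b j).toMul, fun j g => b.repr (Additive.ofMul g) j, ?_, ?_, ?_⟩
  · intro j g h
    show b.repr (Additive.ofMul g + Additive.ofMul h) j = _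
    rw [map_add, Finsupp.add_apply]
  · intro i j
    show b.repr (b j) i = _
    rw [Module.Basis.repr_self, Finsupp.single_apply]
    by_cases h : i = j
    · rw [if_pos h, if_pos h.symm]
    · rw [if_neg h, if_neg (Ne.symm h)]
  · intro f hf g
    let F : Additive G →+ ZMod 2 :=
      { toFun := fun x => f x.toMul
        map_zero' := by
          have h1 := hf 1 1
          rw [mul_one] at h1
          have h3 : f 1 = 0 := by
            have h4 : f 1 + 0 = f 1 + f 1 := by rw [add_zero]; exact h1
            exact (add_left_cancel h4).symm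
          exact h3
        map_add' := fun x y => hf _ _ }
    have h1 : F.toZModLinearMap 2 (Additive.ofMul g) =
        F.toZModLinearMap 2 (∑ j, b.repr (Additive.ofMul g) j • b j) := by
      rw [b.sum_repr]
    rw [map_sum] at h1
    simp only [map_smul, smul_eq_mul] at h1
    have h3 : f g = F.toZModLinearMap 2 (Additive.ofMul g) := rfl
    rw [h3, h1]
    refine Finset.sum_congr rfl fun j _ => ?_
    rw [mul_comm]
    rfl

end Pool.Agent.Q150.ESB
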