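import Pool.Agent.Q161.ESB.Stm4
import Pool.Agent.Q150.ESB.Grp

/-!
# Job KUM of project ESB (helper161), by helper150: Kummer theory
-/

set_option autoImplicit false

namespace Pool.Agent.Q150.ESB

open NumberField Finset Pool.Agent.Q161.ESB

/-- the sign of an element of `ZMod 2` -/
def sg (K : Type) [Field K] (x : ZMod 2) : Kˣ := if x = 0 then 1 else -1

lemma sg_add (K : Type) [Field K] (x y : ZMod 2) : sg K (x + y) = sg K x * sg K y := by
  have h : ∀ x : ZMod 2, x = 0 ∨ x = 1 := by decide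
  rcases h x with rfl | rfl
  · rw [zero_add]
    unfold sg
    rw [if_pos rfl, one_mul]
  · rcases h y with rfl | rfl
    · rw [add_zero]
      unfold sg
      rw [if_pos (rfl : (0 : ZMod 2) = 0), mul_one]
    · have h1 : (1 : ZMod 2) + 1 = 0 := by decide
      rw [h1]
      unfold sg
      rw [if_pos rfl, if_neg one_ne_zero]
      simp

lemma sg_sum (K : Type) [Field K] {ι : Type} (S : Finset ι) (x : ι → ZMod 2) :
    sg K (∑ i ∈ S, x i) = ∏ i ∈ S, sg K (x i) := by
  classical
  induction S using Finset.induction_on with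
  | empty => simp [sg]
  | insert a S ha ih => rw [Finset.sum_insert ha, Finset.prod_insert ha, sg_add, ih]

lemma sg_sq (K : Type) [Field K] (x : ZMod 2) : ((sg K x : Kˣ) : K) ^ 2 = 1 := by
  unfold sg
  split_ifs <;> simp

/-- JOB KUM of project ESB -/
theorem kum : S_KUM := by
  intro F K _ _ _ _ _ m hE
  classical
  have hG := hE.gal
  have hfd : FiniteDimensional F K := inferInstance
  have hcard : Nat.card (K ≃ₐ[F] K) = 2 ^ m := by
    rw [IsGalois.card_aut_eq_finrank, hE.deg]
  obtain ⟨e, χ, hχ, hdual, hall⟩ := dual_basis (K ≃ₐ[F] K) m hcard hE.two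
  -- the elements of the characters
  have hex : ∀ j, ∃ β : Kˣ, ∀ σ : K ≃ₐ[F] K, σ (β : K) = (sg K (χ j σ) : Kˣ) * (β : K) := by
    intro j
    have hc : groupCohomology.IsMulCocycle₁ (fun σ : K ≃ₐ[F] K => sg K (χ j σ)) := by
      intro g h
      have h1 : g • sg K (χ j h) = sg K (χ j h) := by
        unfold sg
        split_ifs
        · rw [smul_one]
        · ext
          simp [AlgEquiv.smul_units_def]
      show sg K (χ j (g * h)) = g • sg K (χ j h) * sg K (χ j g)
      rw [h1, hχ, sg_add, mul_comm]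
    obtain ⟨β, hβ⟩ := groupCohomology.isMulCoboundary₁_of_isMulCocycle₁_of_aut_to_units _ hc
    refine ⟨β, fun σ => ?_⟩
    have h1 := hβ σ
    rw [div_eq_iff_eq_mul] at h1
    have h2 := congrArg (Units.val) h1
    rw [Units.val_mul] at h2
    exact h2
  choose β hβ using hex
  have hbex : ∀ j, ∃ c : F, algebraMap F K c = (β j : K) ^ 2 := by
    intro j
    have h1 : (β j : K) ^ 2 ∈ Set.range (algebraMap F K) := by
      rw [IsGalois.mem_range_algebraMap_iff_fixed]
      intro σ
      rw [map_pow, hβ, mul_pow, sg_sq, one_mul]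
    exact h1
  choose b hb using hbex
  have hprod : ∀ (S : Finset (Fin m)) (σ : K ≃ₐ[F] K), σ (∏ j ∈ S, (β j : K)) =
      (sg K (∑ j ∈ S, χ j σ) : Kˣ) * ∏ j ∈ S, (β j : K) := by
    intro S σ
    rw [map_prod, sg_sum, Units.coe_prod, ← Finset.prod_mul_distrib]
    exact Finset.prod_congr rfl fun j _ => hβ j σ
  have hprodb : ∀ S : Finset (Fin m), algebraMap F K (∏ j ∈ S, b j) = (∏ j ∈ S, (β j : K)) ^ 2 := by
    intro S
    rw [map_prod, ← Finset.prod_pow]
    exact Finset.prod_congr rfl fun j _ => hb j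
  have hβ0 : ∀ S : Finset (Fin m), ∏ j ∈ S, (β j : K) ≠ 0 := fun S =>
    Finset.prod_ne_zero_iff.2 fun j _ => (β j).ne_zero
  refine ⟨b, ⟨⟨?_, ?_⟩, ?_, ?_⟩⟩
  · intro j h
    have h1 := hb j
    rw [h, map_zero] at h1
    exact pow_ne_zero 2 (β j).ne_zero h1.symm
  · rintro S ⟨j, hj⟩ ⟨t, ht⟩
    have h1 := hprodb S
    rw [ht, map_mul, ← pow_two] at h1
    have h2 : (e j) (∏ i ∈ S, (β i : K)) = ∏ i ∈ S, (β i : K) := by
      rcases sq_eq_sq_iff_eq_or_eq_neg.1 h1 with h | h
      · rw [← h, AlgEquiv.commutes]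
      · have h3 : ∏ i ∈ S, (β i : K) = - algebraMap F K t := by rw [h, neg_neg]
        rw [h3, map_neg, AlgEquiv.commutes]
    rw [hprod] at h2
    have h3 : ∑ i ∈ S, χ i (e j) = 1 := by
      rw [Finset.sum_congr rfl fun i _ => hdual i j, Finset.sum_ite_eq' S j, if_pos hj]
    rw [h3] at h2
    have h4 : (sg K 1 : Kˣ) = -1 := by
      unfold sg
      rw [if_neg one_ne_zero]
    rw [h4] at h2
    have h5 : -(∏ i ∈ S, (β i : K)) = ∏ i ∈ S, (β i : K) := by
      rw [Units.val_neg, Units.val_one, neg_one_mul] at h2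
      exact h2
    exact hβ0 S (self_eq_neg.1 h5.symm)
  · intro j
    exact ⟨β j, (hb j).symm⟩
  · intro s c hs hsc
    have hpm : ∀ σ : K ≃ₐ[F] K, σ s = s ∨ σ s = -s := by
      intro σ
      apply sq_eq_sq_iff_eq_or_eq_neg.1
      rw [← map_pow, hsc, AlgEquiv.commutes]
    have hns : -s ≠ s := fun h => hs (self_eq_neg.1 h.symm)
    let f : (K ≃ₐ[F] K) → ZMod 2 := fun σ => if σ s = s then 0 else 1
    have hfs : ∀ σ, σ s = (sg K (f σ) : Kˣ) * s := by
      intro σ
      rcases hpm σ with h | h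
      · have h1 : f σ = 0 := if_pos h
        rw [h1, h]
        simp [sg]
      · have h1 : f σ = 1 := if_neg (by rw [h]; exact hns)
        rw [h1, h]
        simp [sg]
    have hf : ∀ g h, f (g * h) = f g + f h := by
      intro g h
      show (if g (h s) = s then (0 : ZMod 2) else 1) = (if g s = s then 0 else 1) +
        (if h s = s then 0 else 1)
      rcases hpm g with h1 | h1 <;> rcases hpm h with h2 | h2 <;> rw [h2] <;>
        simp [h1, hns]
      rfl
    refine ⟨Finset.univ.filter fun j => f (e j) = 1, ?_⟩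
    set S := Finset.univ.filter fun j => f (e j) = 1 with hS
    have hsum : ∀ σ, f σ = ∑ j ∈ S, χ j σ := by
      intro σ
      rw [hall f hf σ, hS, Finset.sum_filter]
      refine Finset.sum_congr rfl fun j _ => ?_
      by_cases h : f (e j) = 1
      · rw [if_pos h, h, one_mul]
      · have h1 : f (e j) = 0 := by
          have h3 : ∀ x : ZMod 2, x = 0 ∨ x = 1 := by decide
          exact (h3 _).resolve_right h
        rw [if_neg h, h1, zero_mul]
    have hfix : s / ∏ j ∈ S, (β j : K) ∈ Set.range (algebraMap F K) := by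
      rw [IsGalois.mem_range_algebraMap_iff_fixed]
      intro σ
      rw [map_div₀, hprod, ← hsum, hfs]
      exact mul_div_mul_left _ _ (Units.ne_zero _)
    obtain ⟨t, ht⟩ := hfix
    refine ⟨t, (algebraMap F K).injective ?_⟩
    rw [← hsc, map_mul, hprodb, map_pow, ht, div_pow, mul_div_cancel₀ _ (pow_ne_zero 2 (hβ0 S))]

end Pool.Agent.Q150.ESB
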